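import Pool.Agent.Results.MP_c0d803_al.NestedStackNotContextFree

/-!
# Wreath products with the infinite cyclic group: nested stack, never context-free

If a group `A` is presented by an indexed set of relators `L` over a finite alphabet, then the
restricted wreath product of `A` with `ℤ` is presented by the indexed set of relators
`wreathRelators L`. If `A` is not trivial, the wreath product is not finitely presented, hence not a
context-free group.
-/

set_option autoImplicit false
set_option linter.all false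

namespace Pool.Agent.Results.MP_c0d803_al.WreathWithZ

open Pool.Agent.Results.MP_c0d803_al.NestedStackNotContextFree

/-- The letters: a copy `g x` of every letter `x` of `Δ`, the letter `t`, and formal inverses. -/
inductive Ltr (Δ : Type) : Type
  | g (x : Δ) | g' (x : Δ) | t | t'

open Ltr

instance {Δ : Type} [Finite Δ] : Finite (Ltr Δ) := by
  refine Finite.of_surjective (fun o : Option (Option (Δ ⊕ Δ)) => match o with
    | none => t
    | some none => t'
    | some (some (Sum.inl x)) => g x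
    | some (some (Sum.inr x)) => g' x) ?_
  rintro (x | x | _ | _)
  · exact ⟨some (some (Sum.inl x)), rfl⟩
  · exact ⟨some (some (Sum.inr x)), rfl⟩
  · exact ⟨none, rfl⟩
  · exact ⟨some none, rfl⟩

variable {Δ : Type}

/-- The relator `x (t^n y t'^n) x' (t^n y' t'^n)`: it says that `x` commutes with the conjugate of
`y` by `t^n`. -/
def crel (x y : Δ) (n : ℕ) : List (Ltr Δ) :=
  [g x] ++ List.replicate n t ++ [g y] ++ List.replicate n t' ++ [g' x] ++ List.replicate n t ++
    [g' y] ++ List.replicate n t'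

/-- The relators of the restricted wreath product `A ≀ ℤ` for the group `A = ⟨Δ; w = 1 (w ∈ L)⟩`:
the relators of `A`, the relators `x x'` and `t t'`, and the relators saying that `x` commutes with
the conjugate of `y` by `t^n`, for all letters `x`, `y` and all `n ≥ 1`. -/
def wreathRelators (L : Language Δ) : Language (Ltr Δ) :=
  {w | (∃ v ∈ L, w = v.map g) ∨ (∃ x, w = [g x, g' x]) ∨ w = [t, t'] ∨
    ∃ x y n, w = crel x y (n + 1)}

/-- The relators with `n < m`. -/
def relSet (L : Language Δ) (m : ℕ) : Set (List (Ltr Δ)) :=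
  {w | (∃ v ∈ L, w = v.map g) ∨ (∃ x, w = [g x, g' x]) ∨ w = [t, t'] ∨
    ∃ x y n, n < m ∧ w = crel x y (n + 1)}

/-! ### The permutation representations -/

lemma word_replicate' {T : Type} (n : ℕ) (x : T) :
    word (List.replicate n x) = (FreeGroup.of x) ^ n := by
  simp [word]

section Rep

variable {A : Type} [Group A] (M : ℕ) (y₁ : A)

/-- The set on which the representation acts. -/
abbrev Om (y₁ : A) : Type := ℤ × {y : A // y ≠ y₁}

/-- The embedding of `A`. -/
noncomputable def e0 (hM : 0 < M) (h1 : (1 : A) ≠ y₁) : A ↪ Om y₁ := by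
  classical
  exact ⟨fun y => if h : y = y₁ then ((M : ℤ), ⟨1, h1⟩) else (0, ⟨y, h⟩), by
    intro y z h
    by_cases hy : y = y₁ <;> by_cases hz : z = y₁
    · rw [hy, hz]
    · simp [hy, hz] at h; omega
    · simp [hy, hz] at h; omega
    · simpa [hy, hz] using h⟩

variable (hM : 0 < M) (h1 : (1 : A) ≠ y₁)

lemma e0_self : e0 M y₁ hM h1 y₁ = ((M : ℤ), ⟨1, h1⟩) := by simp [e0]

lemma e0_ne {y : A} (h : y ≠ y₁) : e0 M y₁ hM h1 y = (0, ⟨y, h⟩) := by simp [e0, h]

/-- The action of `A`. -/
noncomputable def lam : A →* Equiv.Perm (Om y₁) :=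
  (Equiv.Perm.viaEmbeddingHom (e0 M y₁ hM h1)).comp (MulAction.toPermHom A A)

lemma lam_e0 (a y : A) : lam M y₁ hM h1 a (e0 M y₁ hM h1 y) = e0 M y₁ hM h1 (a * y) := by
  have := Equiv.Perm.viaEmbedding_apply (MulAction.toPermHom A A a) (e0 M y₁ hM h1) y
  simpa [lam, Equiv.Perm.viaEmbeddingHom_apply] using this

lemma lam_fix (a : A) (w : Om y₁) (h0 : w.1 ≠ 0) (hm : w.1 ≠ (M : ℤ)) :
    lam M y₁ hM h1 a w = w := by
  have hw : w ∉ Set.range (e0 M y₁ hM h1) := by
    rintro ⟨y, rfl⟩
    by_cases hy : y = y₁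
    · subst hy
      rw [e0_self] at hm
      exact hm rfl
    · rw [e0_ne M y₁ hM h1 hy] at h0
      exact h0 rfl
  have := Equiv.Perm.viaEmbedding_apply_of_notMem (MulAction.toPermHom A A a)
    (e0 M y₁ hM h1) w hw
  simpa [lam, Equiv.Perm.viaEmbeddingHom_apply] using this

/-- The shift. -/
def tau : Equiv.Perm (Om y₁) := Equiv.prodCongr (Equiv.addRight 1) (Equiv.refl _)

lemma tau_pow (n : ℕ) (w : Om y₁) : (tau y₁ ^ n) w = (w.1 + n, w.2) := by
  induction n generalizing w with
  | zero => simp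
  | succ n ih =>
    rw [pow_succ, Equiv.Perm.mul_apply, ih]
    simp [tau]
    ring

lemma tau_pow_inv (n : ℕ) (w : Om y₁) : (tau y₁ ^ n)⁻¹ w = (w.1 - n, w.2) := by
  rw [Equiv.Perm.inv_eq_iff_eq, tau_pow]
  simp

/-- the conjugate of the action by the shift -/
noncomputable def lamn (n : ℕ) (b : A) : Equiv.Perm (Om y₁) :=
  tau y₁ ^ n * lam M y₁ hM h1 b * (tau y₁ ^ n)⁻¹

lemma lamn_apply (n : ℕ) (b : A) (w : Om y₁) : lamn M y₁ hM h1 n b w =
    (tau y₁ ^ n) (lam M y₁ hM h1 b (w.1 - n, w.2)) := by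
  rw [lamn, Equiv.Perm.mul_apply, Equiv.Perm.mul_apply, tau_pow_inv]

lemma commute_lt {n : ℕ} (h0 : 0 < n) (hn : n < M) (a b : A) :
    Commute (lam M y₁ hM h1 a) (lamn M y₁ hM h1 n b) := by
  refine Equiv.Perm.Disjoint.commute ?_
  intro w
  by_cases hw : w.1 ≠ 0 ∧ w.1 ≠ (M : ℤ)
  · exact Or.inl (lam_fix M y₁ hM h1 a w hw.1 hw.2)
  · right
    rw [lamn_apply, lam_fix, tau_pow]
    · ext
      · simp
      · simp
    · show w.1 - (n : ℤ) ≠ 0
      intro h
      apply hw
      constructor <;> omega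
    · show w.1 - (n : ℤ) ≠ (M : ℤ)
      intro h
      apply hw
      constructor <;> omega

lemma not_commute (a : A) (ha : a ≠ 1) :
    ¬ Commute (lam M y₁ hM h1 a) (lamn M y₁ hM h1 M a) := by
  intro h
  have h2 := DFunLike.congr_fun h.eq (e0 M y₁ hM h1 (a⁻¹ * y₁))
  have hne : a⁻¹ * y₁ ≠ y₁ := by
    intro h3
    apply ha
    have := mul_eq_right.1 h3
    exact inv_eq_one.1 this
  rw [Equiv.Perm.mul_apply, Equiv.Perm.mul_apply, lam_e0] at h2
  have h3 : lamn M y₁ hM h1 M a (e0 M y₁ hM h1 (a⁻¹ * y₁)) = e0 M y₁ hM h1 (a⁻¹ * y₁) := by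
    rw [lamn_apply, e0_ne M y₁ hM h1 hne, lam_fix, tau_pow]
    · ext
      · simp
      · simp
    · show (0 : ℤ) - (M : ℤ) ≠ 0
      omega
    · show (0 : ℤ) - (M : ℤ) ≠ (M : ℤ)
      omega
  rw [h3, lam_e0, mul_inv_cancel_left, lamn_apply, e0_self] at h2
  have h4 : (((M : ℤ) - (M : ℤ), ⟨1, h1⟩) : Om y₁) = e0 M y₁ hM h1 1 := by
    rw [e0_ne M y₁ hM h1 h1]
    simp
  have h5 : lam M y₁ hM h1 a ((((M : ℤ), ⟨1, h1⟩) : Om y₁).1 - (M : ℤ),
      (((M : ℤ), ⟨1, h1⟩) : Om y₁).2) = e0 M y₁ hM h1 a := by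
    show lam M y₁ hM h1 a (((M : ℤ) - (M : ℤ), ⟨1, h1⟩) : Om y₁) = _
    rw [h4, lam_e0, mul_one]
  rw [h5, tau_pow] at h2
  by_cases hay : a = y₁
  · subst hay
    rw [e0_self] at h2
    have := congrArg Prod.fst h2
    simp at this
    omega
  · rw [e0_ne M y₁ hM h1 hay] at h2
    have := congrArg Prod.snd h2
    simp at this
    exact ha this.symm

end Rep

/-! ### The wreath product is not finitely presented -/

lemma word_crel (x y : Δ) (n : ℕ) : word (crel x y n) =
    FreeGroup.of (g x) * (FreeGroup.of t) ^ n * FreeGroup.of (g y) * (FreeGroup.of t') ^ n *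
      FreeGroup.of (g' x) * (FreeGroup.of t) ^ n * FreeGroup.of (g' y) *
      (FreeGroup.of t') ^ n := by
  simp only [crel, word_append, word_replicate']
  simp [word]

section Rep2

variable (L : Language Δ) (M : ℕ) (y₁ : GroupDefinedBy L) (hM : 0 < M)
  (h1 : (1 : GroupDefinedBy L) ≠ y₁)

/-- The permutation representation of the free group on the letters. -/
noncomputable def rep : FreeGroup (Ltr Δ) →* Equiv.Perm (Om y₁) :=
  FreeGroup.lift (fun l => match l with
    | g x => lam M y₁ hM h1 (PresentedGroup.of x)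
    | g' x => (lam M y₁ hM h1 (PresentedGroup.of x))⁻¹
    | t => tau y₁
    | t' => (tau y₁)⁻¹)

lemma rep_g (x : Δ) : rep L M y₁ hM h1 (FreeGroup.of (g x)) =
    lam M y₁ hM h1 (PresentedGroup.of x) := by simp [rep]

lemma rep_g' (x : Δ) : rep L M y₁ hM h1 (FreeGroup.of (g' x)) =
    (lam M y₁ hM h1 (PresentedGroup.of x))⁻¹ := by simp [rep]

lemma rep_t : rep L M y₁ hM h1 (FreeGroup.of t) = tau y₁ := by simp [rep]

lemma rep_t' : rep L M y₁ hM h1 (FreeGroup.of t') = (tau y₁)⁻¹ := by simp [rep]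

lemma rep_crel (x y : Δ) (n : ℕ) : rep L M y₁ hM h1 (word (crel x y n)) =
    lam M y₁ hM h1 (PresentedGroup.of x) * lamn M y₁ hM h1 n (PresentedGroup.of y) *
      (lam M y₁ hM h1 (PresentedGroup.of x))⁻¹ *
      (lamn M y₁ hM h1 n (PresentedGroup.of y))⁻¹ := by
  rw [word_crel]
  simp only [map_mul, map_pow, rep_g, rep_g', rep_t, rep_t', lamn, mul_inv_rev, inv_inv, inv_pow,
    mul_assoc]

lemma rep_map (v : List Δ) : rep L M y₁ hM h1 (word (v.map g)) =
    lam M y₁ hM h1 (PresentedGroup.mk _ (word v)) := by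
  have h : (rep L M y₁ hM h1).comp (FreeGroup.map g) =
      (lam M y₁ hM h1).comp (PresentedGroup.mk (word '' (L : Set (List Δ)))) := by
    ext x : 1
    simp [rep_g, PresentedGroup.of]
  have h2 : word (v.map g) = FreeGroup.map g (word v) := by
    simp [word, map_list_prod, List.map_map, Function.comp_def]
  rw [h2]
  exact DFunLike.congr_fun h (word v)

lemma rep_relSet {m : ℕ} (hm : m < M) {x : FreeGroup (Ltr Δ)}
    (hx : x ∈ Subgroup.normalClosure (word '' relSet L m)) : rep L M y₁ hM h1 x = 1 := by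
  have hle : Subgroup.normalClosure (word '' relSet L m) ≤ (rep L M y₁ hM h1).ker := by
    apply Subgroup.normalClosure_le_normal
    rintro _ ⟨w, hw, rfl⟩
    rcases hw with ⟨v, hv, rfl⟩ | ⟨x, rfl⟩ | rfl | ⟨x, y, n, hn, rfl⟩
    · change rep L M y₁ hM h1 (word (v.map g)) = 1
      rw [rep_map]
      have : PresentedGroup.mk (word '' (L : Set (List Δ))) (word v) = 1 :=
        PresentedGroup.one_of_mem ⟨v, hv, rfl⟩
      rw [this, map_one]
    · change rep L M y₁ hM h1 (word [g x, g' x]) = 1
      simp [word, rep_g, rep_g']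
    · change rep L M y₁ hM h1 (word [t, t']) = 1
      simp [word, rep_t, rep_t']
    · change rep L M y₁ hM h1 (word (crel x y (n + 1))) = 1
      rw [rep_crel, (commute_lt M y₁ hM h1 (Nat.succ_pos n) (by omega) _ _).eq]
      simp [mul_assoc]
  exact hle hx

lemma rep_crel_self (x : Δ) (hx : (PresentedGroup.of x : GroupDefinedBy L) ≠ 1) :
    rep L M y₁ hM h1 (word (crel x x M)) ≠ 1 := by
  intro h
  rw [rep_crel] at h
  apply not_commute M y₁ hM h1 _ hx
  have h2 := mul_inv_eq_one.1 h
  exact mul_inv_eq_iff_eq_mul.1 h2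

end Rep2

theorem exists_of_ne_one (L : Language Δ) [Nontrivial (GroupDefinedBy L)] :
    ∃ x : Δ, (PresentedGroup.of x : GroupDefinedBy L) ≠ 1 := by
  by_contra hcon
  push Not at hcon
  obtain ⟨y, hy⟩ := exists_ne (1 : GroupDefinedBy L)
  apply hy
  have h := PresentedGroup.closure_range_of (word '' (L : Set (List Δ)))
  have h2 : Set.range (PresentedGroup.of (rels := word '' (L : Set (List Δ)))) ⊆ {1} := by
    rintro _ ⟨x, rfl⟩
    exact hcon x
  have h3 : y ∈ Subgroup.closure (Set.range
      (PresentedGroup.of (rels := word '' (L : Set (List Δ))))) := by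
    rw [h]; trivial
  have h4 := Subgroup.closure_mono h2 h3
  rw [Subgroup.closure_singleton_one] at h4
  exact Subgroup.mem_bot.1 h4

/-- For a nontrivial group `A` the wreath product with `ℤ` is not finitely presented. -/
theorem not_isFinitelyPresented [Finite Δ] (L : Language Δ) [Nontrivial (GroupDefinedBy L)] :
    ¬ Group.IsFinitelyPresented (GroupDefinedBy (wreathRelators L)) := by
  intro hfp
  obtain ⟨x₀, hx₀⟩ := exists_of_ne_one L
  let N : ℕ → Subgroup (FreeGroup (Ltr Δ)) := fun m =>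
    Subgroup.normalClosure (word '' relSet L m)
  have hker : (PresentedGroup.mk (word '' (wreathRelators L : Set (List (Ltr Δ))))).ker =
      Subgroup.normalClosure (word '' (wreathRelators L : Set (List (Ltr Δ)))) :=
    QuotientGroup.ker_mk' _
  have hmono : Monotone N := by
    intro m m' hm
    apply Subgroup.normalClosure_mono
    apply Set.image_mono
    rintro w (h | h | h | ⟨x, y, n, hn, h⟩)
    · exact Or.inl h
    · exact Or.inr (Or.inl h)
    · exact Or.inr (Or.inr (Or.inl h))
    · exact Or.inr (Or.inr (Or.inr ⟨x, y, n, lt_of_lt_of_le hn hm, h⟩))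
  obtain ⟨m, hm⟩ := exists_ker_le
    (PresentedGroup.mk (word '' (wreathRelators L : Set (List (Ltr Δ)))))
    (PresentedGroup.mk_surjective _) N (fun m => inferInstance) hmono (by
      intro x hx
      rw [hker] at hx
      induction hx using Subgroup.closure_induction with
      | mem x hx =>
        obtain ⟨y, hy, hxy⟩ := Group.mem_conjugatesOfSet_iff.1 hx
        obtain ⟨w, hw, rfl⟩ := hy
        have : ∃ m, word w ∈ N m := by
          rcases hw with h | h | h | ⟨x, y, n, h⟩
          · exact ⟨0, Subgroup.subset_normalClosure ⟨w, Or.inl h, rfl⟩⟩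
          · exact ⟨0, Subgroup.subset_normalClosure ⟨w, Or.inr (Or.inl h), rfl⟩⟩
          · exact ⟨0, Subgroup.subset_normalClosure ⟨w, Or.inr (Or.inr (Or.inl h)), rfl⟩⟩
          · exact ⟨n + 1, Subgroup.subset_normalClosure
              ⟨w, Or.inr (Or.inr (Or.inr ⟨x, y, n, Nat.lt_succ_self n, h⟩)), rfl⟩⟩
        obtain ⟨m, hm⟩ := this
        refine ⟨m, ?_⟩
        obtain ⟨c, hc⟩ := isConj_iff.1 hxy
        rw [← hc]
        exact (inferInstance : (N m).Normal).conj_mem _ hm c
      | one => exact ⟨0, one_mem _⟩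
      | mul x y _ _ hx hy =>
        obtain ⟨m₁, h₁⟩ := hx
        obtain ⟨m₂, h₂⟩ := hy
        exact ⟨max m₁ m₂, mul_mem (hmono (le_max_left _ _) h₁) (hmono (le_max_right _ _) h₂)⟩
      | inv x _ hx =>
        obtain ⟨m, h⟩ := hx
        exact ⟨m, inv_mem h⟩)
  have h1 : word (crel x₀ x₀ (m + 1)) ∈
      (PresentedGroup.mk (word '' (wreathRelators L : Set (List (Ltr Δ))))).ker := by
    rw [hker]
    exact Subgroup.subset_normalClosure
      ⟨_, Or.inr (Or.inr (Or.inr ⟨x₀, x₀, m, rfl⟩)), rfl⟩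
  exact rep_crel_self L (m + 1) (PresentedGroup.of x₀) (Nat.succ_pos m) hx₀.symm x₀ hx₀
    (rep_relSet L (m + 1) (PresentedGroup.of x₀) (Nat.succ_pos m) hx₀.symm (Nat.lt_succ_self m)
      (hm h1))

/-! ### The language of relators is indexed -/

/-- New nonterminals of the grammar. -/
inductive NT1 (Δ : Type) : Type
  | S | P (x y : Δ) | X | Y

open NT1 Flags

instance {Δ : Type} [Finite Δ] : Finite (NT1 Δ) := by
  refine Finite.of_surjective (fun o : Option (Option (Option (Δ × Δ))) => match o with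
    | none => S
    | some none => X
    | some (some none) => Y
    | some (some (some p)) => P p.1 p.2) ?_
  rintro (_ | ⟨x, y⟩ | _ | _)
  · exact ⟨none, rfl⟩
  · exact ⟨some (some (some (x, y))), rfl⟩
  · exact ⟨some none, rfl⟩
  · exact ⟨some (some none), rfl⟩

section Grammar

variable (γ : IndexedGrammar Δ)

/-- Translation of the right-hand side of a rule. -/
def tr (α : List (Δ ⊕ γ.NT)) : List (Ltr Δ ⊕ (γ.NT ⊕ NT1 Δ)) := α.map (Sum.map g Sum.inl)

/-- The right-hand side for the commutation relators. -/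
def body (N : Type) (x y : Δ) : List (Ltr Δ ⊕ (N ⊕ NT1 Δ)) :=
  [Sum.inl (g x), Sum.inl t, Sum.inr (Sum.inr X), Sum.inl (g y), Sum.inl t', Sum.inr (Sum.inr Y),
    Sum.inl (g' x), Sum.inl t, Sum.inr (Sum.inr X), Sum.inl (g' y), Sum.inl t',
    Sum.inr (Sum.inr Y)]

/-- The grammar. -/
abbrev gr [Finite Δ] : IndexedGrammar (Ltr Δ) where
  NT := γ.NT ⊕ NT1 Δ
  Flag := γ.Flag ⊕ Flags
  finite_NT := by have := γ.finite_NT; infer_instance
  finite_Flag := by have := γ.finite_Flag; infer_instance
  start := Sum.inr S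
  copyRules := {(Sum.inr S, [Sum.inr (Sum.inl γ.start)])} ∪
    Set.range (fun x : Δ => (Sum.inr S, [Sum.inl (g x), Sum.inl (g' x)])) ∪
    {(Sum.inr S, [Sum.inl t, Sum.inl t'])} ∪
    Set.range (fun p : Δ × Δ => (Sum.inr (P p.1 p.2), body γ.NT p.1 p.2)) ∪
    (fun r => (Sum.inl r.1, tr γ r.2)) '' γ.copyRules
  pushRules := Set.range (fun p : Δ × Δ => (Sum.inr S, Sum.inr (P p.1 p.2), Sum.inr e)) ∪
    Set.range (fun p : Δ × Δ => (Sum.inr (P p.1 p.2), Sum.inr (P p.1 p.2), Sum.inr f)) ∪
    (fun r => (Sum.inl r.1, Sum.inl r.2.1, Sum.inl r.2.2)) '' γ.pushRules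
  popRules := {(Sum.inr X, Sum.inr f, [Sum.inl t, Sum.inr (Sum.inr X)])} ∪
    {(Sum.inr X, Sum.inr e, [])} ∪
    {(Sum.inr Y, Sum.inr f, [Sum.inl t', Sum.inr (Sum.inr Y)])} ∪
    {(Sum.inr Y, Sum.inr e, [])} ∪
    (fun r => (Sum.inl r.1, Sum.inl r.2.1, tr γ r.2.2)) '' γ.popRules
  finite_copyRules := ((((Set.finite_singleton _).union (Set.finite_range _)).union
    (Set.finite_singleton _)).union (Set.finite_range _)).union (γ.finite_copyRules.image _)
  finite_pushRules := ((Set.finite_range _).union (Set.finite_range _)).union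
    (γ.finite_pushRules.image _)
  finite_popRules := ((((Set.finite_singleton _).union (Set.finite_singleton _)).union
    (Set.finite_singleton _)).union (Set.finite_singleton _)).union (γ.finite_popRules.image _)

/-- Symbols with stacks. -/
abbrev Sy : Type := Ltr Δ ⊕ ((γ.NT ⊕ NT1 Δ) × List (γ.Flag ⊕ Flags))

/-- A language attached to each symbol carrying a stack. -/
def sem : Sy γ → Language (Ltr Δ)
  | Sum.inl x => {[x]}
  | Sum.inr (Sum.inl A, l) => {w | ∀ l' : List γ.Flag, l = l'.map Sum.inl →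
      ∃ v : List Δ, Relation.ReflTransGen γ.Step [Sum.inr (A, l')] (v.map Sum.inl) ∧ w = v.map g}
  | Sum.inr (Sum.inr S, l) => {w | l = [] → w ∈ wreathRelators γ.language}
  | Sum.inr (Sum.inr (P x y), _) => {w | ∃ n, w = crel x y (n + 1)}
  | Sum.inr (Sum.inr X, l) =>
      {w | ∃ k m, l = List.replicate k (Sum.inr f) ++ Sum.inr e :: m ∧ w = List.replicate k t}
  | Sum.inr (Sum.inr Y, l) =>
      {w | ∃ k m, l = List.replicate k (Sum.inr f) ++ Sum.inr e :: m ∧ w = List.replicate k t'}

/-- The language attached to a sentential form. -/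
def semF (u : List (Sy γ)) : Language (Ltr Δ) := (u.map (sem γ)).prod

lemma semF_append (u v : List (Sy γ)) : semF γ (u ++ v) = semF γ u * semF γ v := by
  simp [semF]

lemma rep_unique {F : Type} {k k' : ℕ} {m m' : List (F ⊕ Flags)}
    (h : List.replicate k (Sum.inr f) ++ Sum.inr e :: m =
      List.replicate k' (Sum.inr f) ++ Sum.inr e :: m') : k = k' ∧ m = m' := by
  induction k generalizing k' with
  | zero =>
    cases k' with
    | zero => simpa using h
    | succ k' => simp [List.replicate_succ] at h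
  | succ k ih =>
    cases k' with
    | zero => simp [List.replicate_succ] at h
    | succ k' =>
      rw [List.replicate_succ, List.replicate_succ, List.cons_append, List.cons_append] at h
      have := ih (List.cons.inj h).2
      exact ⟨by rw [this.1], this.2⟩

lemma mem_semF_cons (x : Sy γ) (u : List (Sy γ)) (w : List (Ltr Δ)) :
    w ∈ semF γ (x :: u) ↔ ∃ w₁ ∈ sem γ x, ∃ w₂ ∈ semF γ u, w₁ ++ w₂ = w := by
  simp only [semF, List.map_cons, List.prod_cons]
  exact Language.mem_mul

lemma mem_semF_nil (w : List (Ltr Δ)) : w ∈ semF γ [] ↔ w = [] := by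
  exact Language.mem_one w

lemma semF_map_inl (w : List (Ltr Δ)) : ∀ v, v ∈ semF γ (w.map Sum.inl) ↔ v = w := by
  induction w with
  | nil => intro v; exact mem_semF_nil γ v
  | cons x w ih =>
    intro v
    rw [List.map_cons, mem_semF_cons]
    constructor
    · rintro ⟨w₁, h₁, w₂, h₂, rfl⟩
      rw [ih] at h₂
      have : w₁ = [x] := h₁
      rw [this, h₂]
      rfl
    · rintro rfl
      exact ⟨[x], rfl, w, (ih w).2 rfl, rfl⟩

lemma semF_singleton (x : Sy γ) : semF γ [x] = sem γ x := by
  simp [semF]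

lemma semF_context {u v : List (Sy γ)} (h : semF γ v ≤ semF γ u) (p q : List (Sy γ)) :
    semF γ (p ++ v ++ q) ≤ semF γ (p ++ u ++ q) := by
  simp only [semF_append]
  gcongr

/-- Translation of sentential forms. -/
def emb (u : γ.Form) : List (Sy γ) :=
  u.map (Sum.map g (fun p => (Sum.inl p.1, p.2.map Sum.inl)))

lemma sem_emb (u : γ.Form) : ∀ w ∈ semF γ (emb γ u),
    ∃ v : List Δ, Relation.ReflTransGen γ.Step u (v.map Sum.inl) ∧ w = v.map g := by
  induction u with
  | nil =>
    intro w hw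
    exact ⟨[], .refl, (mem_semF_nil γ w).1 hw⟩
  | cons s u ih =>
    intro w hw
    rw [emb, List.map_cons, mem_semF_cons] at hw
    obtain ⟨w₁, h₁, w₂, h₂, rfl⟩ := hw
    obtain ⟨v₂, hv₂, rfl⟩ := ih w₂ h₂
    rcases s with x | ⟨A, l⟩
    · have : w₁ = [g x] := h₁
      subst this
      refine ⟨x :: v₂, ?_, rfl⟩
      exact derives_mul (γ := γ) (u := [Sum.inl x]) (u' := [Sum.inl x]) .refl hv₂
    · obtain ⟨v₁, hv₁, rfl⟩ := h₁ l rfl
      refine ⟨v₁ ++ v₂, ?_, by simp⟩
      rw [List.map_append]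
      exact derives_mul (γ := γ) (u := [Sum.inr (A, l)]) hv₁ hv₂

variable [Finite Δ]

lemma distribute_tr (l : List γ.Flag) (α : List (Δ ⊕ γ.NT)) :
    (gr γ).distribute (l.map Sum.inl) (tr γ α) = emb γ (γ.distribute l α) := by
  simp only [IndexedGrammar.distribute, tr, emb, List.map_map]
  apply List.map_congr_left
  rintro (x | A) _
  · rfl
  · rfl

lemma emb_context (p q r : γ.Form) : emb γ (p ++ r ++ q) = emb γ p ++ emb γ r ++ emb γ q := by
  simp [emb]

lemma step_emb {u v : γ.Form} (h : γ.Step u v) : (gr γ).Step (emb γ u) (emb γ v) := by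
  cases h with
  | copy p q A l α hα =>
    rw [emb_context, emb_context, ← distribute_tr]
    exact IndexedGrammar.Step.copy (γ := gr γ) _ _ _ _ _ (Or.inr ⟨(A, α), hα, rfl⟩)
  | push p q A B fl l hα =>
    rw [emb_context, emb_context]
    exact IndexedGrammar.Step.push (γ := gr γ) _ _ _ _ _ _ (Or.inr ⟨(A, B, fl), hα, rfl⟩)
  | pop p q A fl l α hα =>
    rw [emb_context, emb_context, ← distribute_tr]
    exact IndexedGrammar.Step.pop (γ := gr γ) _ _ _ _ _ _ (Or.inr ⟨(A, fl, α), hα, rfl⟩)

lemma derives_emb {u v : γ.Form} (h : Relation.ReflTransGen γ.Step u v) :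
    Relation.ReflTransGen (gr γ).Step (emb γ u) (emb γ v) := by
  induction h with
  | refl => exact .refl
  | tail _ h ih => exact ih.tail (step_emb γ h)

lemma sem_body (x y : Δ) (l : List (γ.Flag ⊕ Flags)) (w : List (Ltr Δ))
    (hw : w ∈ semF γ ((gr γ).distribute l (body γ.NT x y))) : ∃ n, w = crel x y (n + 1) := by
  simp only [IndexedGrammar.distribute, body, List.map_cons, List.map_nil, Sum.map_inl,
    Sum.map_inr, id] at hw
  replace hw := (mem_semF_cons _ _ _ _).1 hw
  obtain ⟨w₁, h₁, w', hw, rfl⟩ := hw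
  replace hw := (mem_semF_cons _ _ _ _).1 hw
  obtain ⟨w₂, h₂, w', hw, rfl⟩ := hw
  replace hw := (mem_semF_cons _ _ _ _).1 hw
  obtain ⟨w₃, h₃, w', hw, rfl⟩ := hw
  replace hw := (mem_semF_cons _ _ _ _).1 hw
  obtain ⟨w₄, h₄, w', hw, rfl⟩ := hw
  replace hw := (mem_semF_cons _ _ _ _).1 hw
  obtain ⟨w₅, h₅, w', hw, rfl⟩ := hw
  replace hw := (mem_semF_cons _ _ _ _).1 hw
  obtain ⟨w₆, h₆, w', hw, rfl⟩ := hw
  replace hw := (mem_semF_cons _ _ _ _).1 hw
  obtain ⟨w₇, h₇, w', hw, rfl⟩ := hw
  replace hw := (mem_semF_cons _ _ _ _).1 hw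
  obtain ⟨w₈, h₈, w', hw, rfl⟩ := hw
  replace hw := (mem_semF_cons _ _ _ _).1 hw
  obtain ⟨w₉, h₉, w', hw, rfl⟩ := hw
  replace hw := (mem_semF_cons _ _ _ _).1 hw
  obtain ⟨w₁₀, h₁₀, w', hw, rfl⟩ := hw
  replace hw := (mem_semF_cons _ _ _ _).1 hw
  obtain ⟨w₁₁, h₁₁, w', hw, rfl⟩ := hw
  replace hw := (mem_semF_cons _ _ _ _).1 hw
  obtain ⟨w₁₂, h₁₂, w', hw, rfl⟩ := hw
  replace hw := (mem_semF_nil _ _).1 hw
  obtain ⟨k₃, m₃, e₃, rfl⟩ := h₃
  obtain ⟨k₆, m₆, e₆, rfl⟩ := h₆
  obtain ⟨k₉, m₉, e₉, rfl⟩ := h₉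
  obtain ⟨k₁₂, m₁₂, e₁₂, rfl⟩ := h₁₂
  have h₁' : w₁ = [g x] := h₁
  have h₂' : w₂ = [t] := h₂
  have h₄' : w₄ = [g y] := h₄
  have h₅' : w₅ = [t'] := h₅
  have h₇' : w₇ = [g' x] := h₇
  have h₈' : w₈ = [t] := h₈
  have h₁₀' : w₁₀ = [g' y] := h₁₀
  have h₁₁' : w₁₁ = [t'] := h₁₁
  have q₆ := (rep_unique (e₃.symm.trans e₆)).1
  have q₉ := (rep_unique (e₃.symm.trans e₉)).1
  have q₁₂ := (rep_unique (e₃.symm.trans e₁₂)).1
  refine ⟨k₃, ?_⟩
  rw [h₁', h₂', h₄', h₅', h₇', h₈', h₁₀', h₁₁', hw, ← q₆, ← q₉, ← q₁₂]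
  simp [crel, List.replicate_succ]

lemma sem_step {u v : (gr γ).Form} (h : (gr γ).Step u v) : semF γ v ≤ semF γ u := by
  cases h with
  | copy p q A l α hα =>
    apply semF_context
    rw [semF_singleton]
    rcases hα with (((h | ⟨x, h⟩) | h) | ⟨⟨x, y⟩, h⟩) | ⟨⟨B, β⟩, hB, h⟩
    · obtain ⟨rfl, rfl⟩ := Prod.mk.inj (Set.mem_singleton_iff.1 h)
      intro w hw hl
      subst hl
      have hw' : w ∈ semF γ (emb γ [Sum.inr (γ.start, [])]) := hw
      obtain ⟨v, hv, rfl⟩ := sem_emb γ _ w hw'
      exact Or.inl ⟨v, hv, rfl⟩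
    · obtain ⟨rfl, rfl⟩ := Prod.mk.inj h
      intro w hw hl
      have := (semF_map_inl γ [g x, g' x] w).1 hw
      exact Or.inr (Or.inl ⟨x, this⟩)
    · obtain ⟨rfl, rfl⟩ := Prod.mk.inj (Set.mem_singleton_iff.1 h)
      intro w hw hl
      have := (semF_map_inl γ [t, t'] w).1 hw
      exact Or.inr (Or.inr (Or.inl this))
    · obtain ⟨rfl, rfl⟩ := Prod.mk.inj h
      intro w hw
      exact sem_body γ x y l w hw
    · obtain ⟨rfl, rfl⟩ := Prod.mk.inj h
      intro w hw l' hl
      subst hl
      have hw' : w ∈ semF γ (emb γ (γ.distribute l' β)) := by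
        rw [← distribute_tr]; exact hw
      obtain ⟨v, hv, rfl⟩ := sem_emb γ _ w hw'
      refine ⟨v, ?_, rfl⟩
      have h1 := IndexedGrammar.Step.copy (γ := γ) [] [] B l' β hB
      simp only [List.nil_append, List.append_nil] at h1
      exact Relation.ReflTransGen.head h1 hv
  | push p q A B fl l hα =>
    apply semF_context
    rw [semF_singleton, semF_singleton]
    rcases hα with (⟨⟨x, y⟩, h⟩ | ⟨⟨x, y⟩, h⟩) | ⟨⟨C, D, fl'⟩, hC, h⟩
    · obtain ⟨rfl, h'⟩ := Prod.mk.inj h
      obtain ⟨rfl, rfl⟩ := Prod.mk.inj h'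
      rintro w ⟨n, hn⟩ hl
      exact Or.inr (Or.inr (Or.inr ⟨x, y, n, hn⟩))
    · obtain ⟨rfl, h'⟩ := Prod.mk.inj h
      obtain ⟨rfl, rfl⟩ := Prod.mk.inj h'
      rintro w ⟨n, hn⟩
      exact ⟨n, hn⟩
    · obtain ⟨rfl, h'⟩ := Prod.mk.inj h
      obtain ⟨rfl, rfl⟩ := Prod.mk.inj h'
      intro w hw l' hl
      subst hl
      obtain ⟨v, hv, rfl⟩ := hw (fl' :: l') rfl
      refine ⟨v, ?_, rfl⟩
      have h1 := IndexedGrammar.Step.push (γ := γ) [] [] C D fl' l' hC
      simp only [List.nil_append, List.append_nil] at h1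
      exact Relation.ReflTransGen.head h1 hv
  | pop p q A fl l α hα =>
    apply semF_context
    rw [semF_singleton]
    rcases hα with (((h | h) | h) | h) | ⟨⟨C, fl', β⟩, hC, h⟩
    · obtain ⟨rfl, h'⟩ := Prod.mk.inj (Set.mem_singleton_iff.1 h)
      obtain ⟨rfl, rfl⟩ := Prod.mk.inj h'
      intro w hw
      simp only [IndexedGrammar.distribute, List.map_cons, List.map_nil, Sum.map_inl, Sum.map_inr,
        id] at hw
      replace hw := (mem_semF_cons _ _ _ _).1 hw
      obtain ⟨w₁, h₁, w', hw, rfl⟩ := hw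
      replace hw := (mem_semF_cons _ _ _ _).1 hw
      obtain ⟨w₂, h₂, w', hw, rfl⟩ := hw
      replace hw := (mem_semF_nil _ _).1 hw
      obtain ⟨k, m, hk, rfl⟩ := h₂
      have h₁' : w₁ = [t] := h₁
      refine ⟨k + 1, m, ?_, ?_⟩
      · rw [hk]; rfl
      · rw [h₁', hw]; simp [List.replicate_succ]
    · obtain ⟨rfl, h'⟩ := Prod.mk.inj (Set.mem_singleton_iff.1 h)
      obtain ⟨rfl, rfl⟩ := Prod.mk.inj h'
      intro w hw
      have : w = [] := (mem_semF_nil γ w).1 hw
      exact ⟨0, l, rfl, this⟩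
    · obtain ⟨rfl, h'⟩ := Prod.mk.inj (Set.mem_singleton_iff.1 h)
      obtain ⟨rfl, rfl⟩ := Prod.mk.inj h'
      intro w hw
      simp only [IndexedGrammar.distribute, List.map_cons, List.map_nil, Sum.map_inl, Sum.map_inr,
        id] at hw
      replace hw := (mem_semF_cons _ _ _ _).1 hw
      obtain ⟨w₁, h₁, w', hw, rfl⟩ := hw
      replace hw := (mem_semF_cons _ _ _ _).1 hw
      obtain ⟨w₂, h₂, w', hw, rfl⟩ := hw
      replace hw := (mem_semF_nil _ _).1 hw
      obtain ⟨k, m, hk, rfl⟩ := h₂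
      have h₁' : w₁ = [t'] := h₁
      refine ⟨k + 1, m, ?_, ?_⟩
      · rw [hk]; rfl
      · rw [h₁', hw]; simp [List.replicate_succ]
    · obtain ⟨rfl, h'⟩ := Prod.mk.inj (Set.mem_singleton_iff.1 h)
      obtain ⟨rfl, rfl⟩ := Prod.mk.inj h'
      intro w hw
      have : w = [] := (mem_semF_nil γ w).1 hw
      exact ⟨0, l, rfl, this⟩
    · obtain ⟨rfl, h'⟩ := Prod.mk.inj h
      obtain ⟨rfl, rfl⟩ := Prod.mk.inj h'
      intro w hw l' hl
      cases l' with
      | nil => simp at hl
      | cons c l' =>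
        rw [List.map_cons] at hl
        obtain ⟨hc, hl'⟩ := List.cons.inj hl
        have hc' := Sum.inl_injective hc
        subst hc'
        subst hl'
        have hw' : w ∈ semF γ (emb γ (γ.distribute l' β)) := by
          rw [← distribute_tr]; exact hw
        obtain ⟨v, hv, rfl⟩ := sem_emb γ _ w hw'
        refine ⟨v, ?_, rfl⟩
        have h1 := IndexedGrammar.Step.pop (γ := γ) [] [] C fl' l' β hC
        simp only [List.nil_append, List.append_nil] at h1
        exact Relation.ReflTransGen.head h1 hv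

lemma sem_derives {u v : (gr γ).Form} (h : Relation.ReflTransGen (gr γ).Step u v) :
    semF γ v ≤ semF γ u := by
  induction h with
  | refl => exact le_rfl
  | tail _ h ih => exact (sem_step γ h).trans ih

lemma derives_X (k : ℕ) (m : List (γ.Flag ⊕ Flags)) :
    Relation.ReflTransGen (gr γ).Step
      [Sum.inr (Sum.inr X, List.replicate k (Sum.inr f) ++ Sum.inr e :: m)]
      ((List.replicate k t).map Sum.inl) := by
  induction k with
  | zero =>
    have := IndexedGrammar.Step.pop (γ := gr γ) [] [] (Sum.inr X) (Sum.inr e) m []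
      (Or.inl (Or.inl (Or.inl (Or.inr rfl))))
    exact Relation.ReflTransGen.single this
  | succ k ih =>
    have h1 := IndexedGrammar.Step.pop (γ := gr γ) [] [] (Sum.inr X) (Sum.inr f)
      (List.replicate k (Sum.inr f) ++ Sum.inr e :: m)
      [Sum.inl t, Sum.inr (Sum.inr X)] (Or.inl (Or.inl (Or.inl (Or.inl rfl))))
    refine Relation.ReflTransGen.head h1 ?_
    exact derives_mul (γ := gr γ) (u := [Sum.inl t]) (u' := [Sum.inl t]) .refl ih

lemma derives_Y (k : ℕ) (m : List (γ.Flag ⊕ Flags)) :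
    Relation.ReflTransGen (gr γ).Step
      [Sum.inr (Sum.inr Y, List.replicate k (Sum.inr f) ++ Sum.inr e :: m)]
      ((List.replicate k t').map Sum.inl) := by
  induction k with
  | zero =>
    have := IndexedGrammar.Step.pop (γ := gr γ) [] [] (Sum.inr Y) (Sum.inr e) m []
      (Or.inl (Or.inr rfl))
    exact Relation.ReflTransGen.single this
  | succ k ih =>
    have h1 := IndexedGrammar.Step.pop (γ := gr γ) [] [] (Sum.inr Y) (Sum.inr f)
      (List.replicate k (Sum.inr f) ++ Sum.inr e :: m)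
      [Sum.inl t', Sum.inr (Sum.inr Y)] (Or.inl (Or.inl (Or.inr rfl)))
    refine Relation.ReflTransGen.head h1 ?_
    exact derives_mul (γ := gr γ) (u := [Sum.inl t']) (u' := [Sum.inl t']) .refl ih

lemma derives_P (x y : Δ) (k : ℕ) :
    Relation.ReflTransGen (gr γ).Step [Sum.inr (Sum.inr S, [])]
      [Sum.inr (Sum.inr (P x y), List.replicate k (Sum.inr f) ++ [Sum.inr e])] := by
  induction k with
  | zero =>
    exact Relation.ReflTransGen.single
      (IndexedGrammar.Step.push (γ := gr γ) [] [] (Sum.inr S) (Sum.inr (P x y)) (Sum.inr e) []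
        (Or.inl (Or.inl ⟨(x, y), rfl⟩)))
  | succ k ih =>
    exact ih.tail (IndexedGrammar.Step.push (γ := gr γ) [] [] (Sum.inr (P x y))
      (Sum.inr (P x y)) (Sum.inr f) (List.replicate k (Sum.inr f) ++ [Sum.inr e])
      (Or.inl (Or.inr ⟨(x, y), rfl⟩)))

lemma derives_crel (x y : Δ) (k : ℕ) :
    Relation.ReflTransGen (gr γ).Step [Sum.inr (Sum.inr S, [])]
      ((crel x y (k + 1)).map Sum.inl) := by
  refine (derives_P γ x y k).trans ?_
  have h1 := IndexedGrammar.Step.copy (γ := gr γ) [] [] (Sum.inr (P x y))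
    (List.replicate k (Sum.inr f) ++ [Sum.inr e]) (body γ.NT x y)
    (Or.inl (Or.inr ⟨(x, y), rfl⟩))
  refine Relation.ReflTransGen.head h1 ?_
  have hX := derives_X γ k []
  have hY := derives_Y γ k []
  have h : Relation.ReflTransGen (gr γ).Step
      ([Sum.inl (g x), Sum.inl t] ++
        [Sum.inr (Sum.inr X, List.replicate k (Sum.inr f) ++ [Sum.inr e])] ++
        [Sum.inl (g y), Sum.inl t'] ++
        [Sum.inr (Sum.inr Y, List.replicate k (Sum.inr f) ++ [Sum.inr e])] ++
        [Sum.inl (g' x), Sum.inl t] ++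
        [Sum.inr (Sum.inr X, List.replicate k (Sum.inr f) ++ [Sum.inr e])] ++
        [Sum.inl (g' y), Sum.inl t'] ++
        [Sum.inr (Sum.inr Y, List.replicate k (Sum.inr f) ++ [Sum.inr e])])
      ([Sum.inl (g x), Sum.inl t] ++ (List.replicate k t).map Sum.inl ++
        [Sum.inl (g y), Sum.inl t'] ++ (List.replicate k t').map Sum.inl ++
        [Sum.inl (g' x), Sum.inl t] ++ (List.replicate k t).map Sum.inl ++
        [Sum.inl (g' y), Sum.inl t'] ++ (List.replicate k t').map Sum.inl) :=
    derives_mul (derives_mul (derives_mul (derives_mul (derives_mul (derives_mul (derives_mul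
      .refl hX) .refl) hY) .refl) hX) .refl) hY
  simpa [crel, List.replicate_succ, IndexedGrammar.distribute, body] using h

end Grammar

/-- The relators of the wreath product form an indexed language. -/
theorem isIndexed_wreathRelators [Finite Δ] (L : Language Δ) (hL : IsIndexed L) :
    IsIndexed (wreathRelators L) := by
  obtain ⟨γ, rfl⟩ := hL
  refine ⟨gr γ, ?_⟩
  ext w
  constructor
  · intro hw
    have h : semF γ (w.map Sum.inl) ≤ semF γ [Sum.inr (Sum.inr S, [])] := sem_derives γ hw
    have := h ((semF_map_inl γ w w).2 rfl)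
    rw [semF_singleton] at this
    exact this rfl
  · rintro (⟨v, hv, rfl⟩ | ⟨x, rfl⟩ | rfl | ⟨x, y, n, rfl⟩)
    · have h1 := IndexedGrammar.Step.copy (γ := gr γ) [] [] (Sum.inr S) []
        [Sum.inr (Sum.inl γ.start)] (Or.inl (Or.inl (Or.inl (Or.inl rfl))))
      refine Relation.ReflTransGen.head h1 ?_
      have h2 := derives_emb γ hv
      have h3 : emb γ (v.map Sum.inl) = (v.map g).map Sum.inl := by
        simp [emb, Function.comp_def]
      rw [h3] at h2
      exact h2
    · exact Relation.ReflTransGen.single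
        (IndexedGrammar.Step.copy (γ := gr γ) [] [] (Sum.inr S) [] [Sum.inl (g x), Sum.inl (g' x)]
          (Or.inl (Or.inl (Or.inl (Or.inr ⟨x, rfl⟩)))))
    · exact Relation.ReflTransGen.single
        (IndexedGrammar.Step.copy (γ := gr γ) [] [] (Sum.inr S) [] [Sum.inl t, Sum.inl t']
          (Or.inl (Or.inl (Or.inr rfl))))
    · exact derives_crel γ x y n

/-! ### The restricted wreath product with the infinite cyclic group -/

/-- The restricted wreath product `A ≀ ℤ`: pairs of a function `f : ℤ → A` with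
`{k | f k ≠ 1}` finite and an integer `n`, with the product
`(f, m) (f', n) = (k ↦ f k * f' (k - m), m + n)`. -/
@[ext] structure Wr (A : Type) [Group A] where
  f : ℤ → A
  fin : {k | f k ≠ 1}.Finite
  n : ℤ

section Wr

variable {A : Type} [Group A]

instance : Mul (Wr A) := ⟨fun u v => ⟨fun k => u.f k * v.f (k - u.n), by
  refine (u.fin.union (v.fin.image (fun k => k + u.n))).subset ?_
  intro k hk
  by_cases h : u.f k = 1
  · right
    refine ⟨k - u.n, ?_, by simp⟩
    intro h2
    apply hk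
    show u.f k * v.f (k - u.n) = 1
    rw [h, h2, mul_one]
  · exact Or.inl h, u.n + v.n⟩⟩

instance : One (Wr A) := ⟨⟨fun _ => 1, by simp, 0⟩⟩

instance : Inv (Wr A) := ⟨fun u => ⟨fun k => (u.f (k + u.n))⁻¹, by
  refine (u.fin.image (fun k => k - u.n)).subset ?_
  intro k hk
  refine ⟨k + u.n, ?_, by simp⟩
  intro h
  apply hk
  show (u.f (k + u.n))⁻¹ = 1
  rw [h, inv_one], -u.n⟩⟩

lemma mul_f (u v : Wr A) (k : ℤ) : (u * v).f k = u.f k * v.f (k - u.n) := rfl
lemma mul_n (u v : Wr A) : (u * v).n = u.n + v.n := rfl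
lemma one_f (k : ℤ) : (1 : Wr A).f k = 1 := rfl
lemma one_n : (1 : Wr A).n = 0 := rfl
lemma inv_f (u : Wr A) (k : ℤ) : (u⁻¹).f k = (u.f (k + u.n))⁻¹ := rfl
lemma inv_n (u : Wr A) : (u⁻¹).n = -u.n := rfl

instance instGroupWr : Group (Wr A) := Group.ofLeftAxioms
  (by
    intro u v w
    ext k
    · simp only [mul_f, mul_n, mul_assoc]
      congr 3
      ring
    · simp only [mul_n]; ring)
  (by
    intro u
    ext k
    · simp only [mul_f, one_f, one_n, one_mul, sub_zero]
    · simp only [mul_n, one_n, zero_add])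
  (by
    intro u
    ext k
    · simp only [mul_f, inv_f, inv_n, one_f, sub_neg_eq_add, inv_mul_cancel]
    · simp only [mul_n, inv_n, one_n]; ring)

/-- The function with value `a` at `0` and `1` elsewhere. -/
def sgl (a : A) : ℤ → A := fun k => if k = 0 then a else 1

/-- The embedding of `A`. -/
def iota : A →* Wr A where
  toFun a := ⟨sgl a, (Set.finite_singleton (0 : ℤ)).subset (by
    intro k hk
    by_contra h
    apply hk
    have h' : k ≠ 0 := h
    simp [sgl, h']), 0⟩
  map_one' := by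
    ext k
    · simp [sgl, one_f]
    · rfl
  map_mul' a b := by
    ext k
    · rw [mul_f]
      by_cases h : k = 0
      · simp [sgl, h]
      · simp [sgl, h]
    · simp [mul_n]

/-- The generator of `ℤ`. -/
def tw : Wr A := ⟨fun _ => 1, by simp, 1⟩

lemma iota_f (a : A) (k : ℤ) : (iota a).f k = if k = 0 then a else 1 := rfl
lemma iota_n (a : A) : (iota a).n = 0 := rfl
lemma tw_f (k : ℤ) : (tw : Wr A).f k = 1 := rfl
lemma tw_n : (tw : Wr A).n = 1 := rfl

lemma tw_pow_n (n : ℕ) : ((tw : Wr A) ^ n).n = n := by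
  induction n with
  | zero => simp [one_n]
  | succ n ih => rw [pow_succ, mul_n, ih, tw_n]; push_cast; rfl

lemma tw_pow_f (n : ℕ) (k : ℤ) : ((tw : Wr A) ^ n).f k = 1 := by
  induction n with
  | zero => simp [one_f]
  | succ n ih => rw [pow_succ, mul_f, ih, tw_f, mul_one]

lemma conj_f (n : ℕ) (a : A) (k : ℤ) :
    (tw ^ n * iota a * (tw ^ n)⁻¹).f k = if k = n then a else 1 := by
  rw [mul_f, mul_f, tw_pow_f, inv_f, tw_pow_f, iota_f, tw_pow_n, one_mul, inv_one, mul_one]
  by_cases h : k = n
  · simp [h]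
  · rw [if_neg h, if_neg]
    omega

lemma conj_n (n : ℕ) (a : A) : (tw ^ n * iota a * (tw ^ n)⁻¹).n = 0 := by
  rw [mul_n, mul_n, inv_n, tw_pow_n, iota_n]; ring

lemma commute_wr (n : ℕ) (a b : A) :
    Commute (iota a) (tw ^ (n + 1) * iota b * (tw ^ (n + 1))⁻¹) := by
  have hzn := conj_n (n + 1) b
  have hzf := conj_f (n + 1) b
  generalize tw ^ (n + 1) * iota b * (tw ^ (n + 1))⁻¹ = z at hzn hzf
  show iota a * z = z * iota a
  ext k
  · rw [mul_f, mul_f, hzn, iota_n, sub_zero, hzf, iota_f]
    by_cases h : k = 0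
    · have h2 : k ≠ ((n + 1 : ℕ) : ℤ) := by push_cast; omega
      rw [if_neg h2, mul_one, one_mul]
    · rw [if_neg h, mul_one, one_mul]
  · rw [mul_n, mul_n, hzn, iota_n]

/-- The wreath product is generated by `A` and the generator of `ℤ`. -/
lemma wr_mem (H : Subgroup (Wr A)) (htw : tw ∈ H) (hio : ∀ a : A, iota a ∈ H) (u : Wr A) :
    u ∈ H := by
  have htn : ∀ n : ℤ, ((tw : Wr A) ^ n).n = n ∧ ∀ k, ((tw : Wr A) ^ n).f k = 1 := by
    intro n
    induction n with
    | zero => exact ⟨by simp [one_n], fun k => by simp [one_f]⟩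
    | succ i ih =>
      rw [zpow_add_one]
      exact ⟨by rw [mul_n, ih.1, tw_n], fun k => by rw [mul_f, ih.2, tw_f, mul_one]⟩
    | pred i ih =>
      rw [zpow_sub_one]
      exact ⟨by rw [mul_n, ih.1, inv_n, tw_n]; ring,
        fun k => by rw [mul_f, ih.2, inv_f, tw_f, inv_one, mul_one]⟩
  have hfs : ∀ s : Finset ℤ, ∀ u : Wr A, u.n = 0 → (∀ k, k ∉ s → u.f k = 1) → u ∈ H := by
    intro s
    induction s using Finset.induction_on with
    | empty =>
      intro u hn hf
      have : u = 1 := by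
        ext k
        · exact hf k (by simp)
        · exact hn
      rw [this]; exact one_mem _
    | insert c s hc ih =>
      intro u hn hf
      let d : Wr A := tw ^ c * iota (u.f c) * (tw ^ c)⁻¹
      have hd : d ∈ H :=
        mul_mem (mul_mem (zpow_mem htw c) (hio _)) (inv_mem (zpow_mem htw c))
      have hdn : d.n = 0 := by
        show (tw ^ c * iota (u.f c) * (tw ^ c)⁻¹).n = 0
        rw [mul_n, mul_n, inv_n, iota_n, (htn c).1]; ring
      have hdf : ∀ k, d.f k = if k = c then u.f c else 1 := by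
        intro k
        show (tw ^ c * iota (u.f c) * (tw ^ c)⁻¹).f k = _
        rw [mul_f, mul_f, (htn c).2, inv_f, (htn c).2, iota_f, (htn c).1, one_mul, inv_one,
          mul_one]
        by_cases h : k = c
        · simp [h]
        · rw [if_neg h, if_neg]
          omega
      have h1 : d⁻¹ * u ∈ H := by
        apply ih
        · rw [mul_n, inv_n, hdn, hn]; ring
        · intro k hk
          rw [mul_f, inv_f, inv_n, hdn, hdf]
          simp only [neg_zero, sub_zero, add_zero]
          by_cases h : k = c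
          · subst h; simp
          · rw [if_neg h, inv_one, one_mul]
            apply hf
            simp [h, hk]
      have h2 := mul_mem hd h1
      rwa [mul_inv_cancel_left] at h2
  have h1 : u * (tw ^ u.n)⁻¹ ∈ H := by
    apply hfs u.fin.toFinset
    · rw [mul_n, inv_n, (htn _).1]; ring
    · intro k hk
      rw [mul_f, inv_f, (htn _).2, inv_one, mul_one]
      by_contra h
      exact hk (by simpa using h)
  have h2 := mul_mem h1 (zpow_mem htw u.n)
  rw [inv_mul_cancel_right] at h2
  exact h2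

/-- Isomorphic groups have isomorphic wreath products with `ℤ`. -/
def wrCongr {B : Type} [Group B] (e : A ≃* B) : Wr A ≃* Wr B where
  toFun u := ⟨fun k => e (u.f k), u.fin.subset (by
    intro k hk h
    apply hk
    show e (u.f k) = 1
    rw [h, map_one]), u.n⟩
  invFun u := ⟨fun k => e.symm (u.f k), u.fin.subset (by
    intro k hk h
    apply hk
    show e.symm (u.f k) = 1
    rw [h, map_one]), u.n⟩
  left_inv u := by ext k <;> simp
  right_inv u := by ext k <;> simp
  map_mul' u v := by
    ext k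
    · exact map_mul e _ _
    · rfl

/-- Homomorphisms of the wreath product into a commutative group. -/
noncomputable def homEquiv (C : Type) [CommGroup C] : (Wr A →* C) ≃ (A →* C) × C where
  toFun φ := (φ.comp iota, φ tw)
  invFun p :=
    { toFun := fun u => (∏ᶠ k, p.1 (u.f k)) * p.2 ^ u.n
      map_one' := by simp [one_f, one_n]
      map_mul' := by
        intro u v
        have hs : ∀ w : Wr A, (Function.mulSupport (fun k => p.1 (w.f k))).Finite := by
          intro w
          refine w.fin.subset ?_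
          intro k hk h
          apply hk
          show p.1 (w.f k) = 1
          rw [h, map_one]
        have h1 : ∏ᶠ k, p.1 ((u * v).f k) =
            (∏ᶠ k, p.1 (u.f k)) * ∏ᶠ k, p.1 (v.f (k - u.n)) := by
          rw [← finprod_mul_distrib (hs u)]
          · simp only [mul_f, map_mul]
          · refine ((hs v).image (fun k => k + u.n)).subset ?_
            intro k hk
            exact ⟨k - u.n, hk, by simp⟩
        have h2 : ∏ᶠ k, p.1 (v.f (k - u.n)) = ∏ᶠ k, p.1 (v.f k) :=
          finprod_comp_equiv (Equiv.subRight u.n) (f := fun k => p.1 (v.f k))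
        show (∏ᶠ k, p.1 ((u * v).f k)) * p.2 ^ (u * v).n = _
        rw [h1, h2, mul_n, zpow_add]
        exact mul_mul_mul_comm _ _ _ _ }
  left_inv φ := by
    ext u
    have key := wr_mem (A := A) ((MonoidHom.eqLocus
      ({ toFun := fun u => (∏ᶠ k, (φ.comp iota) (u.f k)) * (φ tw) ^ u.n
         map_one' := by simp [one_f, one_n]
         map_mul' := by
          intro u v
          have hs : ∀ w : Wr A,
              (Function.mulSupport (fun k => (φ.comp iota) (w.f k))).Finite := by
            intro w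
            refine w.fin.subset ?_
            intro k hk h
            apply hk
            show (φ.comp iota) (w.f k) = 1
            rw [h, map_one]
          have h1 : ∏ᶠ k, (φ.comp iota) ((u * v).f k) =
              (∏ᶠ k, (φ.comp iota) (u.f k)) * ∏ᶠ k, (φ.comp iota) (v.f (k - u.n)) := by
            rw [← finprod_mul_distrib (hs u)]
            · simp only [mul_f, map_mul]
            · refine ((hs v).image (fun k => k + u.n)).subset ?_
              intro k hk
              exact ⟨k - u.n, hk, by simp⟩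
          have h2 : ∏ᶠ k, (φ.comp iota) (v.f (k - u.n)) = ∏ᶠ k, (φ.comp iota) (v.f k) :=
            finprod_comp_equiv (Equiv.subRight u.n) (f := fun k => (φ.comp iota) (v.f k))
          show (∏ᶠ k, (φ.comp iota) ((u * v).f k)) * (φ tw) ^ (u * v).n = _
          rw [h1, h2, mul_n, zpow_add]
          exact mul_mul_mul_comm _ _ _ _ } : Wr A →* C) φ)) ?_ ?_ u
    · exact key
    · show (∏ᶠ k, (φ.comp iota) ((tw : Wr A).f k)) * (φ tw) ^ (tw : Wr A).n = φ tw
      simp [tw_f, tw_n]
    · intro a
      show (∏ᶠ k, (φ.comp iota) ((iota a).f k)) * (φ tw) ^ (iota a).n = φ (iota a)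
      rw [iota_n, zpow_zero, mul_one, finprod_eq_single _ (0 : ℤ)]
      · simp [iota_f]
      · intro k hk
        simp [iota_f, hk]
  right_inv p := by
    ext a
    · show (∏ᶠ k, p.1 ((iota a).f k)) * p.2 ^ (iota a).n = p.1 a
      rw [iota_n, zpow_zero, mul_one, finprod_eq_single _ (0 : ℤ)]
      · simp [iota_f]
      · intro k hk
        simp [iota_f, hk]
    · show (∏ᶠ k, p.1 ((tw : Wr A).f k)) * p.2 ^ (tw : Wr A).n = p.2
      simp [tw_f, tw_n]

end Wr

/-! ### The presentation of the wreath product -/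

section Iso

variable (L : Language Δ)

/-- The group with the relators `wreathRelators L`. -/
abbrev GW : Type := GroupDefinedBy (wreathRelators L)

/-- A relator is trivial in the group. -/
lemma rel_one {w : List (Ltr Δ)} (h : w ∈ wreathRelators L) :
    (PresentedGroup.mk (word '' (wreathRelators L : Set (List (Ltr Δ)))) (word w) : GW L) = 1 :=
  PresentedGroup.one_of_mem ⟨w, h, rfl⟩

/-- The value of a letter. -/
def phiLetter : Ltr Δ → Wr (GroupDefinedBy L)
  | g x => iota (PresentedGroup.of x)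
  | g' x => (iota (PresentedGroup.of x))⁻¹
  | t => tw
  | t' => tw⁻¹

lemma lift_phi_map (v : List Δ) : FreeGroup.lift (phiLetter L) (word (v.map g)) =
    iota (PresentedGroup.mk (word '' (L : Set (List Δ))) (word v)) := by
  have h : (FreeGroup.lift (phiLetter L)).comp (FreeGroup.map g) =
      iota.comp (PresentedGroup.mk (word '' (L : Set (List Δ)))) := by
    ext x : 1
    simp [phiLetter, PresentedGroup.of]
  have h2 : word (v.map g) = FreeGroup.map g (word v) := by
    simp [word, map_list_prod, List.map_map, Function.comp_def]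
  rw [h2]
  exact DFunLike.congr_fun h (word v)

lemma lift_phi_crel (x y : Δ) (n : ℕ) : FreeGroup.lift (phiLetter L) (word (crel x y (n + 1))) =
    1 := by
  rw [word_crel]
  simp only [map_mul, map_pow, FreeGroup.lift_apply_of, phiLetter]
  have h := (commute_wr n (PresentedGroup.of x : GroupDefinedBy L) (PresentedGroup.of y)).eq
  calc _ = (iota (PresentedGroup.of x) *
        (tw ^ (n + 1) * iota (PresentedGroup.of y) * (tw ^ (n + 1))⁻¹)) *
        (iota (PresentedGroup.of x))⁻¹ *
        (tw ^ (n + 1) * iota (PresentedGroup.of y) * (tw ^ (n + 1))⁻¹)⁻¹ := by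
        simp only [mul_assoc, mul_inv_rev, inv_inv, inv_pow]
    _ = 1 := by rw [h]; group

/-- The homomorphism onto the wreath product. -/
def phi : GW L →* Wr (GroupDefinedBy L) :=
  PresentedGroup.toGroup (f := phiLetter L) (by
    rintro _ ⟨w, hw, rfl⟩
    rcases hw with ⟨v, hv, rfl⟩ | ⟨x, rfl⟩ | rfl | ⟨x, y, n, rfl⟩
    · rw [lift_phi_map]
      have : PresentedGroup.mk (word '' (L : Set (List Δ))) (word v) = 1 :=
        PresentedGroup.one_of_mem ⟨v, hv, rfl⟩
      rw [this, map_one]
    · simp [word, phiLetter]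
    · simp [word, phiLetter]
    · exact lift_phi_crel L x y n)

lemma phi_of (x : Ltr Δ) : phi L (PresentedGroup.of x) = phiLetter L x :=
  PresentedGroup.toGroup.of _

/-- The homomorphism from `A`. -/
def jj : GroupDefinedBy L →* GW L :=
  PresentedGroup.toGroup (f := fun x => (PresentedGroup.of (g x) : GW L)) (by
    rintro _ ⟨w, hw, rfl⟩
    have h : (FreeGroup.lift (fun x => (PresentedGroup.of (g x) : GW L))) =
        (PresentedGroup.mk (word '' (wreathRelators L : Set (List (Ltr Δ))))).comp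
          (FreeGroup.map g) := by
      ext x : 1
      simp [PresentedGroup.of]
    have h2 : word (w.map g) = FreeGroup.map g (word w) := by
      simp [word, map_list_prod, List.map_map, Function.comp_def]
    rw [h, MonoidHom.comp_apply, ← h2]
    exact rel_one L (Or.inl ⟨w, hw, rfl⟩))

lemma jj_of (x : Δ) : jj L (PresentedGroup.of x) = PresentedGroup.of (g x) :=
  PresentedGroup.toGroup.of _

/-- The letter `t` in the group. -/
def tt : GW L := PresentedGroup.of t

lemma of_t' : (PresentedGroup.of t' : GW L) = (tt L)⁻¹ := by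
  have h := rel_one L (w := [t, t']) (Or.inr (Or.inr (Or.inl rfl)))
  have h2 : (tt L) * (PresentedGroup.of t' : GW L) = 1 := by
    simpa [word, tt, PresentedGroup.of] using h
  exact eq_inv_of_mul_eq_one_right h2

lemma of_g' (x : Δ) : (PresentedGroup.of (g' x) : GW L) = (PresentedGroup.of (g x))⁻¹ := by
  have h := rel_one L (w := [g x, g' x]) (Or.inr (Or.inl ⟨x, rfl⟩))
  have h2 : (PresentedGroup.of (g x) : GW L) * (PresentedGroup.of (g' x) : GW L) = 1 := by
    simpa [word, PresentedGroup.of] using h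
  exact eq_inv_of_mul_eq_one_right h2

lemma commute_letters (x y : Δ) (n : ℕ) : Commute (PresentedGroup.of (g x) : GW L)
    (tt L ^ (n + 1) * PresentedGroup.of (g y) * (tt L ^ (n + 1))⁻¹) := by
  have h := rel_one L (w := crel x y (n + 1)) (Or.inr (Or.inr (Or.inr ⟨x, y, n, rfl⟩)))
  rw [word_crel] at h
  simp only [map_mul, map_pow] at h
  change (PresentedGroup.of (g x) : GW L) * (tt L) ^ (n + 1) * PresentedGroup.of (g y) *
    (PresentedGroup.of t') ^ (n + 1) * PresentedGroup.of (g' x) * (tt L) ^ (n + 1) *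
    PresentedGroup.of (g' y) * (PresentedGroup.of t') ^ (n + 1) = 1 at h
  rw [of_t', of_g', of_g', inv_pow] at h
  show _ * _ = _ * _
  rw [← mul_inv_eq_one, ← h]
  simp only [mul_assoc, mul_inv_rev, inv_inv]

lemma commute_jj (a b : GroupDefinedBy L) (n : ℕ) :
    Commute (jj L a) (tt L ^ (n + 1) * jj L b * (tt L ^ (n + 1))⁻¹) := by
  have key : ∀ (z : GW L), (∀ x : Δ, Commute (PresentedGroup.of (g x) : GW L) z) →
      ∀ a, Commute (jj L a) z := by
    intro z hz a
    have h : (⊤ : Subgroup (GroupDefinedBy L)) ≤ (Subgroup.centralizer {z}).comap (jj L) := by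
      rw [← PresentedGroup.closure_range_of, Subgroup.closure_le]
      rintro _ ⟨x, rfl⟩
      show jj L (PresentedGroup.of x) ∈ Subgroup.centralizer {z}
      rw [jj_of, Subgroup.mem_centralizer_singleton_iff]
      exact (hz x).eq
    have h2 := h (Subgroup.mem_top a)
    exact Subgroup.mem_centralizer_singleton_iff.1 h2
  refine key _ ?_ a
  intro x
  have h3 : Commute ((tt L ^ (n + 1))⁻¹ * PresentedGroup.of (g x) * tt L ^ (n + 1))
      (jj L b) := by
    refine (key _ ?_ b).symm
    intro y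
    have h4 := (commute_letters L x y n).symm
    have h5 := (Commute.conj_iff (tt L ^ (n + 1))⁻¹).2 h4
    have e1 : (tt L ^ (n + 1))⁻¹ * (tt L ^ (n + 1) * PresentedGroup.of (g y) *
        (tt L ^ (n + 1))⁻¹) * ((tt L ^ (n + 1))⁻¹)⁻¹ = PresentedGroup.of (g y) := by group
    have e2 : (tt L ^ (n + 1))⁻¹ * (PresentedGroup.of (g x) : GW L) * ((tt L ^ (n + 1))⁻¹)⁻¹ =
        (tt L ^ (n + 1))⁻¹ * PresentedGroup.of (g x) * tt L ^ (n + 1) := by rw [inv_inv]
    rw [e1, e2] at h5
    exact h5
  have h6 := (Commute.conj_iff (tt L ^ (n + 1))).2 h3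
  have e3 : tt L ^ (n + 1) * ((tt L ^ (n + 1))⁻¹ * PresentedGroup.of (g x) * tt L ^ (n + 1)) *
      (tt L ^ (n + 1))⁻¹ = (PresentedGroup.of (g x) : GW L) := by group
  rw [e3] at h6
  exact h6

/-- The conjugates of the elements of `A`. -/
def J (k : ℤ) (a : GroupDefinedBy L) : GW L := tt L ^ k * jj L a * (tt L ^ k)⁻¹

lemma J_one (k : ℤ) : J L k 1 = 1 := by simp [J]

lemma J_mul (k : ℤ) (a b : GroupDefinedBy L) : J L k a * J L k b = J L k (a * b) := by
  simp [J, mul_assoc]

lemma J_zero (a : GroupDefinedBy L) : J L 0 a = jj L a := by simp [J]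

lemma tt_J (k : ℤ) (a : GroupDefinedBy L) : tt L * J L k a = J L (k + 1) a * tt L := by
  simp only [J, zpow_add_one]
  have := (Commute.zpow_self (tt L) k).eq
  rw [this]
  simp [mul_assoc]

lemma J_commute_lt {k l : ℤ} (h : k < l) (a b : GroupDefinedBy L) :
    Commute (J L k a) (J L l b) := by
  obtain ⟨n, hn⟩ : ∃ n : ℕ, l = k + (n + 1 : ℕ) := ⟨(l - k - 1).toNat, by omega⟩
  have h1 := (Commute.conj_iff (tt L ^ k)).2 (commute_jj L a b n)
  have e1 : tt L ^ k * (tt L ^ (n + 1) * jj L b * (tt L ^ (n + 1))⁻¹) * (tt L ^ k)⁻¹ =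
      J L l b := by
    rw [J, hn, zpow_add, zpow_natCast]
    simp [mul_assoc]
  rw [e1] at h1
  exact h1

lemma J_commute {k l : ℤ} (h : k ≠ l) (a b : GroupDefinedBy L) :
    Commute (J L k a) (J L l b) := by
  rcases lt_or_gt_of_ne h with h | h
  · exact J_commute_lt L h a b
  · exact (J_commute_lt L h b a).symm

/-- The product over a window. -/
def V : ℤ → ℕ → (ℤ → GroupDefinedBy L) → GW L
  | _, 0, _ => 1
  | a, m + 1, F => J L a (F a) * V (a + 1) m F

lemma V_succ (a : ℤ) (m : ℕ) (f : ℤ → GroupDefinedBy L) :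
    V L a (m + 1) f = J L a (f a) * V L (a + 1) m f := rfl

lemma V_congr (m : ℕ) : ∀ (a : ℤ) (f f' : ℤ → GroupDefinedBy L), (∀ k, a ≤ k → f k = f' k) →
    V L a m f = V L a m f' := by
  induction m with
  | zero => intro a f f' _; rfl
  | succ m ih =>
    intro a f f' h
    rw [V_succ, V_succ, h a le_rfl, ih (a + 1) f f' (fun k hk => h k (by omega))]

lemma V_one (m : ℕ) : ∀ a : ℤ, V L a m (fun _ => 1) = 1 := by
  induction m with
  | zero => intro a; rfl
  | succ m ih => intro a; rw [V_succ, ih, J_one, mul_one]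

lemma V_right (m : ℕ) : ∀ (a : ℤ) (f : ℤ → GroupDefinedBy L), f (a + m) = 1 →
    V L a (m + 1) f = V L a m f := by
  induction m with
  | zero =>
    intro a f h
    rw [V_succ]
    have h' : f a = 1 := by simpa using h
    rw [h', J_one, one_mul]
    rfl
  | succ m ih =>
    intro a f h
    rw [V_succ, ih (a + 1) f (by rw [← h]; congr 1; push_cast; ring), V_succ]

lemma V_left (m : ℕ) (a : ℤ) (f : ℤ → GroupDefinedBy L) (h : f (a - 1) = 1) :
    V L (a - 1) (m + 1) f = V L a m f := by
  rw [V_succ, h, J_one, one_mul, sub_add_cancel]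

lemma V_enlarge (a : ℤ) (m : ℕ) (f : ℤ → GroupDefinedBy L)
    (h : ∀ k, k < a ∨ a + m ≤ k → f k = 1) (p q : ℕ) :
    V L (a - p) (p + (m + q)) f = V L a m f := by
  have h1 : ∀ q : ℕ, V L a (m + q) f = V L a m f := by
    intro q
    induction q with
    | zero => rfl
    | succ q ih =>
      rw [← add_assoc, V_right L (m + q) a f (h _ (Or.inr (by push_cast; omega))), ih]
  induction p with
  | zero => simpa using h1 q
  | succ p ih =>
    have h2 := V_left L (p + (m + q)) (a - p) f (h _ (Or.inl (by omega)))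
    rw [ih] at h2
    rw [← h2]
    have e1 : a - ((p + 1 : ℕ) : ℤ) = a - p - 1 := by push_cast; ring
    have e2 : p + 1 + (m + q) = p + (m + q) + 1 := by ring
    rw [e1, e2]

lemma V_shift (m : ℕ) : ∀ (a : ℤ) (f : ℤ → GroupDefinedBy L),
    tt L * V L a m f = V L (a + 1) m (fun k => f (k - 1)) * tt L := by
  induction m with
  | zero => intro a f; simp [V]
  | succ m ih =>
    intro a f
    rw [V_succ, V_succ, ← mul_assoc, tt_J, mul_assoc, ih, mul_assoc]
    simp

lemma V_mul_zero (m : ℕ) : ∀ (a : ℤ) (f : ℤ → GroupDefinedBy L) (x : GroupDefinedBy L), a ≤ 0 →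
    0 < a + m → jj L x * V L a m f = V L a m (fun k => sgl x k * f k) := by
  induction m with
  | zero => intro a f x h1 h2; exfalso; push_cast at h2; omega
  | succ m ih =>
    intro a f x h1 h2
    rw [V_succ, V_succ]
    by_cases ha : a = 0
    · subst ha
      rw [← mul_assoc, J_zero, J_zero, ← map_mul]
      have e1 : sgl x 0 * f 0 = x * f 0 := by simp [sgl]
      rw [e1]
      congr 1
      apply V_congr
      intro k hk
      have hk' : k ≠ 0 := by omega
      simp [sgl, hk']
    · have e1 : sgl x a * f a = f a := by simp [sgl, ha]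
      rw [e1, ← mul_assoc, ← J_zero, (J_commute L (Ne.symm ha) x (f a)).eq, mul_assoc, J_zero,
        ih (a + 1) f x (by omega) (by push_cast at h2; omega)]

/-- The relation between the elements of the two groups. -/
def Rr (u : Wr (GroupDefinedBy L)) (v : GW L) : Prop :=
  ∃ (a : ℤ) (m : ℕ), (∀ k, k < a ∨ a + m ≤ k → u.f k = 1) ∧ v = V L a m u.f * tt L ^ u.n

lemma Rr_one : Rr L 1 1 := ⟨0, 0, fun k _ => rfl, by simp [V, one_n]⟩

lemma Rr_jj (x : GroupDefinedBy L) (u : Wr (GroupDefinedBy L)) (v : GW L) (h : Rr L u v) :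
    Rr L (iota x * u) (jj L x * v) := by
  obtain ⟨a, m, h1, rfl⟩ := h
  obtain ⟨p, hp1, hp2⟩ : ∃ p : ℕ, -(p : ℤ) ≤ a ∧ a ≤ p := ⟨a.natAbs, by omega, by omega⟩
  have h2 := V_enlarge L a m u.f h1 p (p + 1)
  refine ⟨a - p, p + (m + (p + 1)), ?_, ?_⟩
  · intro k hk
    rw [mul_f, iota_f, iota_n, sub_zero]
    have hk0 : k ≠ 0 := by push_cast at hk; omega
    rw [if_neg hk0, one_mul]
    apply h1
    push_cast at hk
    omega
  · rw [← h2, ← mul_assoc, V_mul_zero L _ _ _ x (by omega) (by push_cast; omega)]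
    have e1 : (iota x * u).n = u.n := by rw [mul_n, iota_n, zero_add]
    rw [e1]
    congr 2
    funext k
    rw [mul_f, iota_n, sub_zero]
    rfl

lemma Rr_tt (u : Wr (GroupDefinedBy L)) (v : GW L) (h : Rr L u v) :
    Rr L (tw * u) (tt L * v) := by
  obtain ⟨a, m, h1, rfl⟩ := h
  refine ⟨a + 1, m, ?_, ?_⟩
  · intro k hk
    rw [mul_f, tw_f, tw_n, one_mul]
    apply h1
    omega
  · rw [← mul_assoc, V_shift, mul_assoc]
    have e1 : (tw * u).n = 1 + u.n := by rw [mul_n, tw_n]
    rw [e1, zpow_add, zpow_one]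
    congr 2
    funext k
    rw [mul_f, tw_f, tw_n, one_mul]

lemma Rr_tt_inv (u : Wr (GroupDefinedBy L)) (v : GW L) (h : Rr L u v) :
    Rr L (tw⁻¹ * u) ((tt L)⁻¹ * v) := by
  obtain ⟨a, m, h1, rfl⟩ := h
  refine ⟨a - 1, m, ?_, ?_⟩
  · intro k hk
    rw [mul_f, inv_f, inv_n, tw_f, tw_n, inv_one, one_mul]
    apply h1
    omega
  · rw [inv_mul_eq_iff_eq_mul, ← mul_assoc, V_shift, mul_assoc]
    have e1 : (tw⁻¹ * u).n = -1 + u.n := by rw [mul_n, inv_n, tw_n]
    rw [e1, zpow_add, zpow_neg_one, mul_inv_cancel_left, sub_add_cancel]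
    congr 2
    funext k
    rw [mul_f, inv_f, inv_n, tw_f, tw_n, inv_one, one_mul]
    congr 1
    ring

lemma Rr_all (z : FreeGroup (Ltr Δ)) : ∀ u v, Rr L u v →
    Rr L (phi L (PresentedGroup.mk _ z) * u)
      ((PresentedGroup.mk (word '' (wreathRelators L : Set (List (Ltr Δ)))) z : GW L) * v) := by
  have hg : ∀ x : Δ, (PresentedGroup.of (g x) : GW L) = jj L (PresentedGroup.of x) :=
    fun x => (jj_of L x).symm
  induction z using FreeGroup.induction_on with
  | C1 => intro u v h; simpa using h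
  | of x =>
    intro u v h
    change Rr L (phi L (PresentedGroup.of x) * u) ((PresentedGroup.of x : GW L) * v)
    rw [phi_of]
    rcases x with x | x | _ | _
    · rw [hg]; exact Rr_jj L _ u v h
    · rw [of_g', hg, ← map_inv]
      show Rr L ((iota (PresentedGroup.of x))⁻¹ * u) _
      rw [← map_inv]
      exact Rr_jj L _ u v h
    · exact Rr_tt L u v h
    · rw [of_t']; exact Rr_tt_inv L u v h
  | inv_of x _ =>
    intro u v h
    rw [map_inv, map_inv]
    change Rr L ((phi L (PresentedGroup.of x))⁻¹ * u) ((PresentedGroup.of x : GW L)⁻¹ * v)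
    rw [phi_of]
    rcases x with x | x | _ | _
    · rw [hg, ← map_inv]
      show Rr L ((iota (PresentedGroup.of x))⁻¹ * u) _
      rw [← map_inv]
      exact Rr_jj L _ u v h
    · rw [of_g', hg, inv_inv]
      show Rr L (((iota (PresentedGroup.of x))⁻¹)⁻¹ * u) _
      rw [inv_inv]
      exact Rr_jj L _ u v h
    · exact Rr_tt_inv L u v h
    · rw [of_t', inv_inv]
      show Rr L ((tw⁻¹)⁻¹ * u) _
      rw [inv_inv]
      exact Rr_tt L u v h
  | mul y z hy hz =>
    intro u v h
    rw [map_mul, map_mul, mul_assoc, mul_assoc]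
    exact hy _ _ (hz _ _ h)

lemma phi_injective : Function.Injective (phi L) := by
  rw [injective_iff_map_eq_one]
  intro w hw
  obtain ⟨z, rfl⟩ := PresentedGroup.mk_surjective _ w
  have h := Rr_all L z 1 1 (Rr_one L)
  rw [hw, mul_one, mul_one] at h
  obtain ⟨a, m, -, h2⟩ := h
  rw [h2]
  have h3 : (1 : Wr (GroupDefinedBy L)).f = fun _ => 1 := rfl
  rw [h3, V_one, one_n, zpow_zero, mul_one]

lemma phi_surjective : Function.Surjective (phi L) := by
  intro u
  refine wr_mem (phi L).range ⟨tt L, phi_of L t⟩ ?_ u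
  intro a
  have h : (⊤ : Subgroup (GroupDefinedBy L)) ≤ ((phi L).range).comap iota := by
    rw [← PresentedGroup.closure_range_of, Subgroup.closure_le]
    rintro _ ⟨x, rfl⟩
    exact ⟨PresentedGroup.of (g x), phi_of L (g x)⟩
  exact h (Subgroup.mem_top a)

/-- The relators `wreathRelators L` present the wreath product. -/
noncomputable def phiEquiv : GW L ≃* Wr (GroupDefinedBy L) :=
  MulEquiv.ofBijective (phi L) ⟨phi_injective L, phi_surjective L⟩

end Iso

/-! ### The theorem -/

/-- A grammar without rules. -/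
def gr0 (T : Type) : IndexedGrammar T where
  NT := Unit
  Flag := Unit
  finite_NT := inferInstance
  finite_Flag := inferInstance
  start := ()
  copyRules := ∅
  pushRules := ∅
  popRules := ∅
  finite_copyRules := Set.finite_empty
  finite_pushRules := Set.finite_empty
  finite_popRules := Set.finite_empty

lemma isIndexed_zero (T : Type) : IsIndexed (0 : Language T) := by
  refine ⟨gr0 T, ?_⟩
  ext w
  constructor
  · intro h
    exfalso
    rcases Relation.ReflTransGen.cases_head h with h | ⟨c, hc, -⟩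
    · cases w with
      | nil => simp at h
      | cons x w => simp at h
    · generalize ([Sum.inr ((gr0 T).start, [])] : (gr0 T).Form) = z at hc
      cases hc with
      | copy p q A l α hα => exact hα
      | push p q A B fl l hα => exact hα
      | pop p q A fl l α hα => exact hα
  · intro h
    exact absurd h (Language.notMem_zero w)

/-- The trivial group is a nested stack group. -/
lemma isNestedStackGroup_trivial : IsNestedStackGroup PUnit.{1} := by
  refine ⟨Empty, inferInstance, 0, isIndexed_zero Empty, ?_⟩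
  have hs : Subsingleton (GroupDefinedBy (0 : Language Empty)) := ⟨fun a b => by
    obtain ⟨x, rfl⟩ := PresentedGroup.mk_surjective _ a
    obtain ⟨y, rfl⟩ := PresentedGroup.mk_surjective _ b
    rw [Subsingleton.elim x y]⟩
  exact ⟨{ toFun := fun _ => 1
           invFun := fun _ => 1
           left_inv := fun _ => rfl
           right_inv := fun _ => Subsingleton.elim _ _
           map_mul' := fun _ _ => Subsingleton.elim _ _ }⟩

theorem nested_wr (A : Type) [Group A] (h : IsNestedStackGroup A) :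
    IsNestedStackGroup (Wr A) := by
  obtain ⟨Δ, hΔ, L, hL, ⟨e⟩⟩ := h
  exact ⟨Ltr Δ, inferInstance, wreathRelators L, isIndexed_wreathRelators L hL,
    ⟨(wrCongr e).trans (phiEquiv L).symm⟩⟩

theorem fg_of_nested (A : Type) [Group A] (h : IsNestedStackGroup A) : Group.FG A := by
  obtain ⟨Δ, hΔ, L, hL, ⟨e⟩⟩ := h
  have h1 : Group.FG (GroupDefinedBy L) := by
    rw [Group.fg_iff]
    exact ⟨Set.range PresentedGroup.of, PresentedGroup.closure_range_of _, Set.finite_range _⟩
  exact Group.fg_of_surjective (f := e.symm.toMonoidHom) e.symm.surjective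

theorem not_contextFree_wr (A : Type) [Group A] [Nontrivial A] (h : IsNestedStackGroup A) :
    ¬ IsContextFreeGroup (Wr A) := by
  obtain ⟨Δ, hΔ, L, hL, ⟨e⟩⟩ := h
  intro hcf
  have : Nontrivial (GroupDefinedBy L) := e.symm.toEquiv.nontrivial
  have h1 := hcf.isFinitelyPresented
  exact not_isFinitelyPresented L (Group.IsFinitelyPresented.equiv
    ((wrCongr e).trans (phiEquiv L).symm))

/-- The iterated wreath products `((1 ≀ ℤ) ≀ ℤ) ≀ ⋯ ≀ ℤ`. -/
noncomputable def It : ℕ → (G : Type) × Group G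
  | 0 => ⟨PUnit, inferInstance⟩
  | n + 1 => ⟨@Wr (It n).1 (It n).2, @instGroupWr (It n).1 (It n).2⟩

noncomputable instance (n : ℕ) : Group (It n).1 := (It n).2

lemma It_nested (n : ℕ) : IsNestedStackGroup (It n).1 := by
  induction n with
  | zero => exact isNestedStackGroup_trivial
  | succ n ih => exact nested_wr _ ih

lemma It_nontrivial (n : ℕ) : Nontrivial (It (n + 1)).1 := by
  have : Nontrivial (Wr (It n).1) := ⟨⟨tw, 1, by
    intro h
    have := congrArg Wr.n h
    rw [tw_n, one_n] at this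
    omega⟩⟩
  exact this

lemma It_card (n : ℕ) : Nat.card ((It n).1 →* Multiplicative (ZMod 2)) = 2 ^ n := by
  induction n with
  | zero =>
    have : Unique (PUnit.{1} →* Multiplicative (ZMod 2)) :=
      ⟨⟨1⟩, fun φ => by ext x; exact map_one φ⟩
    exact Nat.card_unique (α := PUnit.{1} →* Multiplicative (ZMod 2))
  | succ n ih =>
    have h := Nat.card_congr (homEquiv (A := (It n).1) (Multiplicative (ZMod 2)))
    rw [Nat.card_prod, ih] at h
    have h2 : Nat.card (Multiplicative (ZMod 2)) = 2 := by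
      rw [Nat.card_congr Multiplicative.toAdd, Nat.card_zmod]
    rw [h2, ← pow_succ] at h
    exact h

/-- **Wreath products with `ℤ` separate nested stack groups from context-free groups.**
(1) If `A` is a nested stack group, so is the restricted wreath product `A ≀ ℤ`; if moreover `A` is
not trivial, then `A ≀ ℤ` is finitely generated and not a context-free group.
(2) More precisely, if `A` is the group defined by an indexed language `L` of relators over a finite
alphabet, then `A ≀ ℤ` is the group defined by the language `wreathRelators L`, which is indexed.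
(3) There are infinitely many pairwise non-isomorphic finitely generated groups which are nested
stack groups but not context-free groups. -/
theorem result :
    (∀ (A : Type) [Group A], IsNestedStackGroup A →
      IsNestedStackGroup (Wr A) ∧
        (Nontrivial A → Group.FG (Wr A) ∧ ¬ IsContextFreeGroup (Wr A))) ∧
    (∀ (Δ : Type) [Finite Δ] (L : Language Δ), IsIndexed L → IsIndexed (wreathRelators L) ∧
      Nonempty (GroupDefinedBy (wreathRelators L) ≃* Wr (GroupDefinedBy L))) ∧
    (∃ (G : ℕ → Type) (_ : ∀ n, Group (G n)),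
      (∀ n, Group.FG (G n) ∧ IsNestedStackGroup (G n) ∧ ¬ IsContextFreeGroup (G n)) ∧
      ∀ m n, Nonempty (G m ≃* G n) → m = n) := by
  refine ⟨?_, ?_, ?_⟩
  · intro A _ h
    refine ⟨nested_wr A h, fun hA => ⟨fg_of_nested _ (nested_wr A h), not_contextFree_wr A h⟩⟩
  · intro Δ _ L hL
    exact ⟨isIndexed_wreathRelators L hL, ⟨phiEquiv L⟩⟩
  · refine ⟨fun n => (It (n + 2)).1, fun n => (It (n + 2)).2, ?_, ?_⟩
    · intro n
      refine ⟨fg_of_nested _ (It_nested (n + 2)), It_nested (n + 2), ?_⟩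
      have := It_nontrivial n
      exact not_contextFree_wr (It (n + 1)).1 (It_nested (n + 1))
    · rintro m n ⟨e⟩
      have h : Nat.card ((It (m + 2)).1 →* Multiplicative (ZMod 2)) =
          Nat.card ((It (n + 2)).1 →* Multiplicative (ZMod 2)) :=
        Nat.card_congr (MulEquiv.monoidHomCongrLeftEquiv e)
      rw [It_card, It_card] at h
      have := Nat.pow_right_injective (le_refl 2) h
      omega

end Pool.Agent.Results.MP_c0d803_al.WreathWithZ
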